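import Pool.Agent.H380.DS.Frob
import Pool.Graph.R_pool_sql_team_seeded_3997aac3.Q66.DS.Fin
import Pool.Graph.R_pool_sql_team_seeded_3997aac3.Q66.DS.BAD
import Pool.Graph.R_pool_sql_team_seeded_3997aac3.Q66.DS.Key2
import Pool.Graph.R_pool_sql_team_seeded_3997aac3.Q66.DS.OSC
import Pool.Graph.R_pool_sql_team_seeded_3997aac3.Q125.DS.Comb
import Pool.Graph.R_pool_sql_team_seeded_3997aac3.Q125.DS.CombA
import Pool.Graph.R_pool_sql_team_seeded_3997aac3.Q125.DS.CombB
import Pool.Graph.R_pool_sql_team_seeded_3997aac3.Q125.DS.Fej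
import Pool.Graph.R_pool_sql_team_seeded_3997aac3.Q125.DS.Top
import Pool.Graph.R_pool_sql_team_seeded_3997aac3.Q125.DS.Top2
import Pool.Graph.R_pool_sql_team_seeded_3997aac3.Q150.DS.RATIO
import Pool.Graph.R_pool_sql_team_seeded_3997aac3.Q211.DS.AVG
import Pool.Graph.R_pool_sql_team_seeded_3997aac3.Q211.DS.GRAM
import Pool.Graph.R_pool_sql_team_seeded_3997aac3.Q211.DS.KRI
import Pool.Graph.R_pool_sql_team_seeded_3997aac3.Q211.DS.L2
import Pool.Graph.R_pool_sql_team_seeded_3997aac3.Q224.DS.AFF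
import Pool.Graph.R_pool_sql_team_seeded_3997aac3.Q225.DS.PAIRS
import Pool.Graph.R_pool_sql_team_seeded_3997aac3.Q225.DS.PICK
import Pool.Graph.R_pool_sql_team_seeded_3997aac3.Q98.DS.GRID
import Pool.Graph.R_pool_sql_team_seeded_3997aac3.Q98.DS.TS

/-!
# MP_e5d0a4_an, Q1: interior of dilated sumsets below dimension `2 / n`

For every `n ≥ 3` the number `ε = 1 / (48 n (n + 200))` works: every Borel set `A` of reals of
Hausdorff dimension larger than `2 / n - ε` admits reals `t_2, ..., t_n` such that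
`A + t_2 A + ... + t_n A` contains a nonempty open interval.
-/

set_option autoImplicit false

open MeasureTheory Set

namespace Pool.Agent.Results.MP_e5d0a4_an.DilatedSumsets

open Pool.Agent in
/-- **Answer to Q1: yes**, with the explicit value `ε_n = 1 / (48 n (n + 200))`. The coefficients
are `t 0 = 1` and `t 1, ..., t (n - 1)`. -/
theorem result : ∀ n : ℕ, 3 ≤ n → ∀ A : Set ℝ, MeasurableSet A →
    ENNReal.ofReal (2 / n - 1 / (48 * n * (n + 200))) < dimH A →
    ∃ t : Fin n → ℝ, (∀ i : Fin n, (i : ℕ) = 0 → t i = 1) ∧ ∃ x y : ℝ, x < y ∧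
      Ioo x y ⊆ {z : ℝ | ∃ a : Fin n → ℝ, (∀ i, a i ∈ A) ∧ z = ∑ i, t i * a i} := by
  have osc := Q66.DS.t_OSC
  have kri := Q211.DS.t_KRI
  have l2 := Q211.DS.t_L2 osc kri
  have avg := Q211.DS.t_AVG l2
  have grid := Q98.DS.t_GRID avg
  have gram := Q211.DS.t_GRAM
  have ratio := Q150.DS.t_RATIO osc gram
  have pairs := Q225.DS.t_PAIRS ratio grid l2
  have comb := Q125.DS.t_COMB Q125.DS.t_COMBA Q125.DS.t_COMBB
  have aff := Q224.DS.t_AFF osc kri
  have key := Q66.DS.t_KEY gram pairs comb aff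
  have bad := Q66.DS.t_BAD key
  have pick := Q225.DS.t_PICK bad
  have ts := Q98.DS.t_TS l2 avg
  have top := Q125.DS.t_TOP Q125.DS.t_FEJ
  exact Q66.DS.final_form H380.DS.t_FROB Q150.DS.t_LAW ts pick top

end Pool.Agent.Results.MP_e5d0a4_an.DilatedSumsets
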